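import Mathlib

open Finset Filter Topology

namespace Pool.Agent.Results.MP_759130_ag.Counter

/-- The Laurent monomial `z^a`. -/
noncomputable def mon {d : ℕ} (a : Fin d → ℤ) (z : Fin d → ℂ) : ℂ := ∏ i, z i ^ a i
/-- An exponent vector as a real point, scaled by `1/k`. -/
noncomputable def pt {d : ℕ} (k : ℕ) (a : Fin d → ℤ) : Fin d → ℝ := fun i => (a i : ℝ) / k
/-- Newton polytope of a Laurent polynomial with support `S`. -/
def newton {d : ℕ} (S : Finset (Fin d → ℤ)) : Set (Fin d → ℝ) := convexHull ℝ (pt 1 '' S)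
/-- `x j` converges, in the projective embedding by the lattice points of each dilate `k N`, to a
point whose nonzero coordinates are exactly those of the lattice points of `k Γ`. -/
def ToOrbit {d : ℕ} (N Γ : Set (Fin d → ℝ)) (x : ℕ → Fin d → ℂ) : Prop :=
  ∀ k : ℕ, 1 ≤ k → ∃ (s : ℕ → ℂ) (l : (Fin d → ℤ) → ℂ), ∀ a, pt k a ∈ N →
    Tendsto (fun j => s j * mon a (x j)) atTop (𝓝 (l a)) ∧ (l a ≠ 0 ↔ pt k a ∈ Γ)
/-- `r` is parallel to `Γ`. -/
def Parallel {d : ℕ} (r : Fin d → ℂ) (Γ : Set (Fin d → ℝ)) : Prop :=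
  r ∈ Submodule.span ℂ {v : Fin d → ℂ | ∃ a ∈ Γ, ∃ b ∈ Γ, v = fun i => ((a i - b i : ℝ) : ℂ)}

def S : Finset (Fin 3 → ℤ) := {![0, 0, 0], ![0, 0, 1], ![0, 0, 2], ![1, 0, 0], ![0, 1, 0]}

lemma sumS (f : (Fin 3 → ℤ) → ℂ) : ∑ a ∈ S, f a =
    f ![0, 0, 0] + (f ![0, 0, 1] + (f ![0, 0, 2] + (f ![1, 0, 0] + f ![0, 1, 0]))) := by
  rw [S, sum_insert (by decide), sum_insert (by decide), sum_insert (by decide),
    sum_insert (by decide), sum_singleton]

lemma nn {p : Fin 3 → ℝ} (hp : p ∈ newton S) : 0 ≤ p 0 ∧ 0 ≤ p 1 := by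
  have : newton S ⊆ {p : Fin 3 → ℝ | 0 ≤ p 0 ∧ 0 ≤ p 1} := by
    refine convexHull_min ?_ ?_
    · rintro _ ⟨a, ha, rfl⟩
      have : 0 ≤ a 0 ∧ 0 ≤ a 1 := by revert a; decide
      simpa [pt] using this
    · intro x hx y hy s t hs ht _
      have := hx.1; have := hx.2; have := hy.1; have := hy.2
      constructor <;> simp <;> positivity
  exact this hp

lemma mem {a : Fin 3 → ℤ} (ha : a ∈ S) : pt 1 a ∈ newton S := subset_convexHull _ _ ⟨a, ha, rfl⟩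

theorem result : ∃ (d : ℕ) (S : Finset (Fin d → ℤ)) (c : (Fin d → ℤ) → ℂ) (Γ : Set (Fin d → ℝ))
    (x : ℕ → Fin d → ℂ) (r : Fin d → ℂ),
    (∀ a ∈ S, c a ≠ 0) ∧ vectorSpan ℝ (newton S) = ⊤ ∧ Γ.Nonempty ∧ IsExposed ℝ (newton S) Γ ∧
    r ≠ 0 ∧ (∀ j, (∀ i, x j i ≠ 0) ∧ ∑ a ∈ S, c a * mon a (x j) = 0 ∧
      ∃ t : ℂ, t ≠ 0 ∧ ∀ i, ∑ a ∈ S, c a * a i * mon a (x j) = t * r i) ∧
    ToOrbit (newton S) Γ x ∧ ¬ Parallel r Γ := by
  have h0 : pt 1 ![0, 0, 0] ∈ newton S := mem (by decide)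
  refine ⟨3, S, fun a => if a 2 = 1 then -2 else 1, {p ∈ newton S | p 0 + p 1 = 0},
    fun j => ![1 / ((j : ℂ) + 1), -(1 / ((j : ℂ) + 1)), 1], ![1, -1, 0], ?_, ?_,
    ⟨_, h0, by simp [pt]⟩, ?_, ?_, fun j => ?_, fun k hk => ?_, ?_⟩
  · intro a _; dsimp only; split_ifs <;> norm_num
  · rw [eq_top_iff]
    intro v _
    have e : v = v 0 • (pt 1 ![1, 0, 0] -ᵥ pt 1 ![0, 0, 0]) + v 1 • (pt 1 ![0, 1, 0] -ᵥ pt 1 ![0, 0, 0])
        + v 2 • (pt 1 ![0, 0, 1] -ᵥ pt 1 ![0, 0, 0]) := by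
      funext i; fin_cases i <;> simp [pt]
    rw [e]
    refine add_mem (add_mem ?_ ?_) ?_ <;>
      exact Submodule.smul_mem _ _ (vsub_mem_vectorSpan ℝ (mem (by decide)) h0)
  · intro _
    refine ⟨-((ContinuousLinearMap.proj 0 : (Fin 3 → ℝ) →L[ℝ] ℝ) +
      (ContinuousLinearMap.proj 1 : (Fin 3 → ℝ) →L[ℝ] ℝ)), ?_⟩
    ext p
    simp only [Set.mem_setOf_eq, ContinuousLinearMap.neg_apply, ContinuousLinearMap.add_apply,
      ContinuousLinearMap.proj_apply]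
    refine and_congr_right fun hp => ⟨fun h y hy => ?_, fun h => ?_⟩
    · linarith [(nn hy).1, (nn hy).2]
    · have := h _ h0
      simp [pt] at this
      linarith [(nn hp).1, (nn hp).2]
  · intro h; simpa using congrFun h 0
  · have hj : (j : ℂ) + 1 ≠ 0 := by exact_mod_cast Nat.succ_ne_zero j
    refine ⟨fun i => by fin_cases i <;> simp [hj], ?_, 1 / ((j : ℂ) + 1), by simp [hj], fun i => ?_⟩
    · rw [sumS]; simp [mon, Fin.prod_univ_three]; ring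
    · rw [sumS]; fin_cases i <;> simp [mon, Fin.prod_univ_three]
  · refine ⟨fun _ => 1, fun a => (0 : ℂ) ^ (a 0).toNat * 0 ^ (a 1).toNat, fun a ha => ?_⟩
    have hk' : (0 : ℝ) < k := by exact_mod_cast hk
    obtain ⟨h1, h2⟩ := nn ha
    simp only [pt, le_div_iff₀ hk', zero_mul, Int.cast_nonneg_iff] at h1 h2
    obtain ⟨m, hm⟩ := Int.eq_ofNat_of_zero_le h1
    obtain ⟨n, hn⟩ := Int.eq_ofNat_of_zero_le h2
    have ht : Tendsto (fun j : ℕ => 1 / ((j : ℂ) + 1)) atTop (𝓝 0) :=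
      tendsto_one_div_add_atTop_nhds_zero_nat
    constructor
    · have := (ht.pow m).mul (ht.neg.pow n)
      simpa [mon, Fin.prod_univ_three, hm, hn] using this
    · simp only [Set.mem_setOf_eq, ha, true_and, pt, hm, hn, ← add_div, div_eq_zero_iff, hk'.ne',
        or_false, Int.toNat_natCast, Int.cast_natCast, ← Nat.cast_add, Nat.cast_eq_zero]
      simp
  · intro h
    have : ∀ v ∈ Submodule.span ℂ {v : Fin 3 → ℂ | ∃ a ∈ {p ∈ newton S | p 0 + p 1 = 0},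
        ∃ b ∈ {p ∈ newton S | p 0 + p 1 = 0}, v = fun i => ((a i - b i : ℝ) : ℂ)}, v 0 = 0 := by
      intro v hv
      induction hv using Submodule.span_induction with
      | mem v hv =>
        obtain ⟨a, ⟨ha, ha'⟩, b, ⟨hb, hb'⟩, rfl⟩ := hv
        have : a 0 - b 0 = 0 := by linarith [(nn ha).1, (nn ha).2, (nn hb).1, (nn hb).2]
        simp only [this, Complex.ofReal_zero]
      | zero => rfl
      | add u v _ _ hu hv => simp [hu, hv]
      | smul t v _ hv => simp [hv]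
    simpa using this _ h

end Pool.Agent.Results.MP_759130_ag.Counter
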